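import Pool.Agent.Y792.RT.Neg

/-!
# Ring topologies extend to the semigroup ring of `G` exactly when `G` is residually finite

For a monoid `G` the following are equivalent: (a) for every Hausdorff topological ring `R` (with
or without identity) some Hausdorff ring topology on the semigroup ring `RG` induces the given
topology on `R`; (b) `G` is residually finite. In particular the question has a negative answer
already for commutative groups, for example for the additive group of the rational numbers, and a
positive answer for instance for all free monoids and all finitely generated linear groups.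

Idea. If `G` is residually finite, all coordinates of the images in the semigroup rings of the
finite quotients of `G` define the topology. Now let `g ≠ h` be equal in all finite quotients.
A function `φ : G → 𝔽₂` with `φ g ≠ φ h` is not recognizable, so the table `φ (a b)` has infinite
rank; by compactness of `𝔽₂ ^ G` there are finite sets `A r` such that all these tables have rank
at least `2 ^ r` on `A r × A r`. The ring `R` is generated by elements `x_a, z_a` (`a ∈ A r`), `y`
of prescribed smallness; the products `x_a y z_b` are matrix units, small matrices are those of
small rank compared with `2 ^ r`, and the sum of the matrix units with `a b = k` is identified with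
`0` for `k ≠ g, h` and with a fixed element `c` for `k = g, h`. The rank estimate shows that `c` does
not vanish. In `RG` the element `c (g + h) = (∑ x_a a) y (∑ z_b b)` would be arbitrarily small.
-/

namespace Pool.Agent.Results.MP_311bfa_al.ResiduallyFinite

open Pool.Agent.Y792.RT

universe u v

/-- (1) The answer to the question is negative, already for a commutative group `G` and a ring with
identity. (2) The monoids `G` for which the answer is positive for all topological rings are exactly
the residually finite ones. (3), (4): the two implications, for rings in all universes and for rings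
with identity (also in terms of `MonoidAlgebra R G`). -/
theorem result :
    (∃ (R : Type) (_ : Ring R) (τ₀ : TopologicalSpace R) (_ : T2Space R) (_ : IsTopologicalRing R)
      (G : Type) (_ : CommGroup G),
      ¬ ∃ τ : TopologicalSpace (MonoidAlgebra R G),
        @T2Space (MonoidAlgebra R G) τ ∧ @IsTopologicalRing (MonoidAlgebra R G) τ _ ∧
        TopologicalSpace.induced (fun r : R => MonoidAlgebra.single (1 : G) r) τ = τ₀) ∧
    (∀ (G : Type u) [Monoid G], ResFin G ↔
      ∀ (R : Type) [NonUnitalRing R] [τ₀ : TopologicalSpace R] [T2Space R] [IsTopologicalRing R],
        ∃ τ : TopologicalSpace (G →₀ R), @IsExtension R G _ _ τ₀ τ) ∧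
    (∀ (G : Type u) [Monoid G], ResFin G →
      ∀ (R : Type v) [NonUnitalRing R] [τ₀ : TopologicalSpace R] [T2Space R] [IsTopologicalRing R],
        ∃ τ : TopologicalSpace (G →₀ R), @IsExtension R G _ _ τ₀ τ) ∧
    (∀ (G : Type u) [Monoid G], ¬ ResFin G →
      ∃ (R : Type) (_ : Ring R) (τ₀ : TopologicalSpace R) (_ : T2Space R)
        (_ : IsTopologicalRing R),
        (¬ ∃ τ : TopologicalSpace (G →₀ R), @IsExtension R G _ _ τ₀ τ) ∧
        ¬ ∃ τ : TopologicalSpace (MonoidAlgebra R G),
          @T2Space (MonoidAlgebra R G) τ ∧ @IsTopologicalRing (MonoidAlgebra R G) τ _ ∧
          TopologicalSpace.induced (fun r : R => MonoidAlgebra.single (1 : G) r) τ = τ₀) := by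
  refine ⟨?_, ?_, ?_, ?_⟩
  · obtain ⟨R, h1, h2, h3, h4, -, h5⟩ := not_resFin rat_not_resFin
    exact ⟨R, h1, h2, h3, h4, Multiplicative ℚ, inferInstance, h5⟩
  · intro G _
    refine ⟨fun hG R _ _ _ _ => extends_of_resFin hG, fun h => ?_⟩
    by_contra hG
    obtain ⟨R, h1, h2, h3, h4, h5, -⟩ := not_resFin hG
    exact h5 (h R)
  · intro G _ hG R _ _ _ _
    exact extends_of_resFin hG
  · intro G _ hG
    exact not_resFin hG

end Pool.Agent.Results.MP_311bfa_al.ResiduallyFinite
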